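import Pool.Agent.H20.RCC.Stmts

/-!
Row ZIP of board rcc (MP_a315fd_nt).
-/

set_option autoImplicit false

namespace Pool.RCC

theorem zip_peel (a b : ℕ) (y : List ℕ) :
    List.zipWith (· + ·) (a :: (y ++ [b])) (a :: (y ++ [b])).reverse =
      (a + b) :: (List.zipWith (· + ·) y y.reverse ++ [b + a]) := by
  have h1 : (a :: (y ++ [b])).reverse = b :: (y.reverse ++ [a]) := by simp
  rw [h1, List.zipWith_cons_cons, List.zipWith_append (by simp)]
  simp

theorem zip_step (k e : ℕ) (a b : ℕ) (x y z m : List ℕ) (hx : x = a :: (y ++ [b]))
    (hab : a + b = e) (h : List.zipWith (· + ·) y y.reverse = z ++ (m ++ z.reverse)) :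
    List.zipWith (· + ·) x x.reverse = (e :: z) ++ (m ++ (e :: z).reverse) := by
  have hba : b + a = e := by omega
  rw [hx, zip_peel, h, hab, hba]
  simp

theorem ZIP_thm : ZIPStmt := by
  intro k H
  induction H with
  | nil =>
    intro L
    induction L with
    | nil =>
      intro x p q hx
      subst hx
      simp [zn]
    | cons l L ih =>
      intro x p q hx
      have h := ih _ p q rfl
      simp only [zn]
      refine zip_step k _ (k + 1) l x _ _ _ ?_ (by omega) h
      rw [hx]
      simp only [List.nil_append, List.length_cons, List.length_nil, Nat.sub_zero,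
        List.reverse_cons]
      rw [show q + (L.length + 1) = (q + L.length) + 1 from by omega, List.replicate_succ]
      simp
  | cons a H ih =>
    intro L
    cases L with
    | nil =>
      intro x p q hx
      have h := ih [] _ p q rfl
      simp only [zn]
      refine zip_step k _ a k x _ _ _ ?_ (by omega) h
      rw [hx]
      simp only [List.length_cons, List.length_nil, Nat.sub_zero, List.reverse_nil,
        List.append_nil]
      rw [show p + (H.length + 1) = (p + H.length) + 1 from by omega, List.replicate_succ']
      simp
    | cons l L =>
      intro x p q hx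
      have h := ih L _ p q rfl
      simp only [zn]
      refine zip_step k _ a l x _ _ _ ?_ (by omega) h
      rw [hx]
      simp

end Pool.RCC
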